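import Pool.Agent.Lib.JS27.Joint

set_option autoImplicit false

namespace Pool.Agent.Results.MP_0447a2_lc.JointSums

/-- The real sequence `x` is uniformly distributed modulo one. -/
def UDmod1 (x : ℕ → ℝ) : Prop :=
  ∀ s t : ℝ, 0 ≤ s → s < t → t ≤ 1 →
    Filter.Tendsto
      (fun N : ℕ =>
        (((Finset.Icc 1 N).filter (fun n => s ≤ Int.fract (x n) ∧ Int.fract (x n) < t)).card : ℝ)
          / (N : ℝ))
      Filter.atTop (nhds (t - s))

/-- `A` is a countable intersection of countable unions of closed sets. -/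
def IsPi03 {X : Type} [TopologicalSpace X] (A : Set X) : Prop :=
  ∃ F : ℕ → ℕ → Set X, (∀ i j, IsClosed (F i j)) ∧ A = ⋂ i, ⋃ j, F i j

/-- Every member of the family `A` is Pi^0_3, and every family of Pi^0_3 subsets of a
zero-dimensional Polish space is the family of preimages under one continuous map with
values in `O`. -/
def JointlyComplete {X I : Type} [TopologicalSpace X] (O : Set X) (A : I → Set X) : Prop :=
  (∀ i, IsPi03 (A i)) ∧
    ∀ (Y : Type) [TopologicalSpace Y] [PolishSpace Y],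
      TopologicalSpace.IsTopologicalBasis {s : Set Y | IsClopen s} →
      ∀ B : I → Set Y, (∀ i, IsPi03 (B i)) →
        ∃ f : Y → X, Continuous f ∧ (∀ x, f x ∈ O) ∧ ∀ i, B i = f ⁻¹' A i

lemma UDmod1_iff (x : ℕ → ℝ) :
    UDmod1 x ↔ Pool.Agent.Lib.MP_0447a2_lc.UD (fun n => x (n + 1)) := by
  have e : ∀ (s t : ℝ) (N : ℕ),
      ((Finset.Icc 1 N).filter (fun n => s ≤ Int.fract (x n) ∧ Int.fract (x n) < t)).card =
        Pool.Agent.Lib.MP_0447a2_lc.cnt (fun n => x (n + 1)) s t N := by
    intro s t N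
    unfold Pool.Agent.Lib.MP_0447a2_lc.cnt
    symm
    apply Finset.card_bij (fun n _ => n + 1)
    · intro n hn
      simp only [Finset.mem_filter, Finset.mem_range, Finset.mem_Icc] at hn ⊢
      exact ⟨⟨by omega, by omega⟩, hn.2⟩
    · intro a _ b _ h
      omega
    · intro n hn
      simp only [Finset.mem_filter, Finset.mem_range, Finset.mem_Icc] at hn ⊢
      obtain ⟨k, rfl⟩ : ∃ k, n = k + 1 := ⟨n - 1, by omega⟩
      exact ⟨k, ⟨by omega, hn.2⟩, rfl⟩
  unfold UDmod1 Pool.Agent.Lib.MP_0447a2_lc.UD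
  simp only [e]
  constructor
  · intro h s t hs hst ht
    rcases eq_or_lt_of_le hst with rfl | hlt
    · have : ∀ N, Pool.Agent.Lib.MP_0447a2_lc.cnt (fun n => x (n + 1)) s s N = 0 := by
        intro N
        unfold Pool.Agent.Lib.MP_0447a2_lc.cnt
        rw [Finset.card_eq_zero, Finset.filter_eq_empty_iff]
        intro n _ hn
        linarith [hn.1, hn.2]
      simp [this]
    · exact h s t hs hlt ht
  · intro h s t hs hst ht
    exact h s t hs hst.le ht

theorem result (p : ℕ) (α : Fin p → ℝ) (hα : ∀ i, 1 < |α i|) (y : Finset (Fin p) → ℕ → ℝ)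
    (O : Set (Fin p → ℝ)) (hO : IsOpen O) (hOne : O.Nonempty) :
    JointlyComplete O (fun S : {S : Finset (Fin p) // S.Nonempty} =>
      {ξ : Fin p → ℝ | UDmod1 (fun n => ∑ i ∈ S.1, ξ i * α i ^ n + y S.1 n)}) := by
  simp only [UDmod1_iff]
  have h0 : ∀ i, α i ≠ 0 := fun i => abs_pos.1 (by linarith [hα i])
  constructor
  · intro S
    apply Pool.Agent.Lib.MP_0447a2_lc.UD_pi03
      (fun (ξ : Fin p → ℝ) (n : ℕ) => ∑ i ∈ S.1, ξ i * α i ^ (n + 1) + y S.1 (n + 1))
    intro n
    fun_prop
  · intro Y _ _ hY B hB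
    choose G hG hBG using hB
    have hc : Continuous fun (η : Fin p → ℝ) (i : Fin p) => η i / α i := by fun_prop
    obtain ⟨u, hu⟩ := hOne
    obtain ⟨f, hf, hfU⟩ := Pool.Agent.Lib.JS27.joint_sums hα (fun S n => y S (n + 1))
      (hO.preimage hc) ⟨fun i => u i * α i, by
        have : (fun i => u i * α i / α i) = u := by
          funext i
          exact mul_div_cancel_right₀ _ (h0 i)
        simpa only [Set.mem_preimage, this] using hu⟩ hY G hG
    refine ⟨fun x i => f x i / α i, hc.comp hf, fun x => (hfU x).1, fun S => ?_⟩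
    ext x
    rw [hBG, ← (hfU x).2 S]
    have e : (fun n : ℕ => ∑ i ∈ S.1, f x i / α i * α i ^ (n + 1) + y S.1 (n + 1)) =
        Pool.Agent.Lib.JS27.ps α (fun S n => y S (n + 1)) S.1 (f x) := by
      funext n
      unfold Pool.Agent.Lib.JS27.ps
      congr 1
      refine Finset.sum_congr rfl fun i _ => ?_
      have := h0 i
      field_simp
      ring
    show _ ↔ Pool.Agent.Lib.MP_0447a2_lc.UD _
    rw [e]

end Pool.Agent.Results.MP_0447a2_lc.JointSums
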